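import Pool.Agent.helper93.TV.Spec2

/-!
# TV: row ONE
-/

namespace Pool.Agent.helper93.TV

open BigOperators Finset Matrix

theorem ONE : ONE_stmt := by
  intro hPO hBD hOC hOO hOD hON hML I V _ _ _ _ D X m bp hm hb hbase n F hF hG
  obtain ⟨f, hdeg, hpos, hzero⟩ := hPO I V D X m
  have hset : {x : D.Q X × Bool → ℝ | MvPolynomial.eval x f = 0} = D.FV X m := by
    ext x
    exact hzero x
  have hbdd : Bornology.IsBounded {x : D.Q X × Bool → ℝ | MvPolynomial.eval x f = 0} := by
    rw [hset]
    refine (Metric.isBounded_closedBall (x := (0 : D.Q X × Bool → ℝ)) (r := 1)).subset ?_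
    intro x hx
    rw [Metric.mem_closedBall, dist_zero_right]
    refine (pi_norm_le_iff_of_nonneg zero_le_one).2 fun i => ?_
    rw [Real.norm_eq_abs]
    exact hBD I V D X m x hx i
  have key := hML (D.Q X × Bool) f (12 * m ^ 2 + 6 * m + 4) hdeg hpos hbdd n
    (fun i => D.Om X m bp (F i)) (fun i => hON I V D X m bp (F i) hm hb hbase (hF i))
    (fun i => by rw [hset]; exact fun x hx => hx.1)
    (fun i j hij => Set.disjoint_left.2 fun x hx hx' =>
      hG i j hij (hOD I V D X m bp (F i) (F j) x hx hx'))
    (fun i => hOC I V D X m bp (F i))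
    (fun i => by rw [hset]; exact hOO I V D X m bp (F i) hm hb hbase (hF i))
  have hcard : Fintype.card (D.Q X × Bool) = 2 * Fintype.card (D.Q X) := by
    rw [Fintype.card_prod, Fintype.card_bool, mul_comm]
  rw [hcard] at key
  exact key

end Pool.Agent.helper93.TV
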